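import Pool.Agent.H397HA.Fail
import Pool.Agent.H397HA.Five

set_option autoImplicit false

namespace Pool.Agent.Results.MP_5acbe8_al.FiniteStrict

/-- The `n`-th order Arguesian law `D_n` in a lattice `α` (trivial for `n ≤ 1`; the lists
`a 1, …, a n` and `b 1, …, b n` are the first values of two sequences). -/
def HigherArguesian (n : ℕ) (α : Type) [Lattice α] : Prop :=
  ∀ (a b : ℕ → α) (h : (Finset.Icc 1 (n - 1)).Nonempty),
    a n ⊓ ((Finset.Icc 1 (n - 1)).inf' h (fun i => a i ⊔ b i) ⊔ b n) ≤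
      a 1 ⊔ ((Finset.Icc 1 (n - 1)).sup' h
        (fun i => (a i ⊔ a (i + 1)) ⊓ (b i ⊔ b (i + 1))) ⊓ (b 1 ⊔ b n))

/-- For every `n ≥ 1` there is a finite lattice that satisfies `D_n` but not `D_{n+1}`. -/
theorem result :
    ∀ n : ℕ, 1 ≤ n → ∃ (α : Type) (_ : Lattice α), Finite α ∧
      HigherArguesian n α ∧ ¬ HigherArguesian (n + 1) α := by
  intro n hn
  rcases Nat.lt_or_ge n 2 with h | h
  · obtain rfl : n = 1 := by omega
    exact ⟨H397HA.N5, inferInstance, inferInstance, fun a b h => absurd h (by simp), H397HA.five⟩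
  · refine ⟨H397HA.Cl n, inferInstance, ?_, H397HA.law h, H397HA.fail h⟩
    exact Finite.of_injective H397HA.Cl.carrier (fun _ _ e => H397HA.Cl.ext' e)

end Pool.Agent.Results.MP_5acbe8_al.FiniteStrict
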